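import Pool.Agent.TH500.QS.Fin3

set_option autoImplicit false

namespace Pool.Agent.Results.MP_6202c5_co.FiniteForEachX

open Finset

universe u

/-- `B` is (the block set of) a `t-(v,k,lam)` design without repeated blocks on the finite point
set `P`, where `v = |P|`: every block has exactly `k` points, and every `t`-element set of points
lies in exactly `lam` blocks. -/
def IsDesign {P : Type*} [DecidableEq P] (B : Finset (Finset P)) (t k lam : ℕ) : Prop :=
  (∀ b ∈ B, b.card = k) ∧
    ∀ T : Finset P, T.card = t → (B.filter (fun b => T ⊆ b)).card = lam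

/-- The set of block intersection numbers: the sizes of the intersections of two distinct
blocks. -/
def intersectionNumbers {P : Type*} [DecidableEq P] (B : Finset (Finset P)) : Set ℕ :=
  {n | ∃ b₁ ∈ B, ∃ b₂ ∈ B, b₁ ≠ b₂ ∧ (b₁ ∩ b₂).card = n}

/-- **Finiteness for each `x`.** For every `x ≥ 1` there is a bound `K` such that every
quasi-symmetric `3-(v,k,lam)` design without repeated blocks, `3 ≤ k < v`, whose smaller
intersection number is `x`, has at most `K` points. -/
theorem result (x : ℕ) (hx : 1 ≤ x) : ∃ K : ℕ, ∀ (P : Type u) [Fintype P] [DecidableEq P]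
    (B : Finset (Finset P)) (k lam y : ℕ), 3 ≤ k → k < Fintype.card P → IsDesign B 3 k lam →
    x < y → intersectionNumbers B = {x, y} → Fintype.card P ≤ K := by
  obtain ⟨K, hK⟩ := Pool.Agent.TH500.QS.finiteness.{u} x hx
  refine ⟨K, ?_⟩
  intro P _ _ B k lam y hk hkv hD hxy hI
  have hint : ∀ b₁ ∈ B, ∀ b₂ ∈ B, b₁ ≠ b₂ → (b₁ ∩ b₂).card = x ∨ (b₁ ∩ b₂).card = y := by
    intro b₁ h₁ b₂ h₂ hne
    have : (b₁ ∩ b₂).card ∈ intersectionNumbers B := ⟨b₁, h₁, b₂, h₂, hne, rfl⟩
    rw [hI] at this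
    simpa using this
  have hx1 : ∃ b₁ ∈ B, ∃ b₂ ∈ B, b₁ ≠ b₂ ∧ (b₁ ∩ b₂).card = x := by
    have : x ∈ intersectionNumbers B := by rw [hI]; simp
    exact this
  have hy1 : ∃ b₁ ∈ B, ∃ b₂ ∈ B, b₁ ≠ b₂ ∧ (b₁ ∩ b₂).card = y := by
    have : y ∈ intersectionNumbers B := by rw [hI]; simp
    exact this
  exact hK P B k lam y hk hkv hD.1 hD.2 hxy hint hx1 hy1

end Pool.Agent.Results.MP_6202c5_co.FiniteForEachX
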